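import Pool.Agent.X171.Lip.Many

/-!
# Continuum many finitely generated `C^{k,Lip}` groups without faithful `C^{k+1}` actions

Full (positive) answer to question Q1 of problem MP_02cf79_al, for every `k ≥ 1` and for both
`M = I` and `M = S^1` at once.

The definitions are those of `Pool/Agent/W331/CR/Defs.lean` and `Pool/Agent/W331/CR/Stm2.lean`:

* `DiffI r`: the group of orientation preserving `C^r` diffeomorphisms of the interval `[0,1]` (a
  subgroup of the group of order automorphisms of `[0,1]`, one-sided derivatives at the ends);
* `DiffS r`: the group of orientation preserving `C^r` diffeomorphisms of the circle `ℝ/ℤ`;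
* `LipI k`: the elements of `DiffI k` with Lipschitz `k`-th derivative;
* `LipS k`: the elements of `DiffS k` with Lipschitz `k`-th derivative.
-/

set_option autoImplicit false

namespace Pool.Agent.Results.MP_02cf79_al.ContinuumLipGroups

open Set Function
open Pool.Agent.W331.CR

/-- For every `k ≥ 1` there are finitely generated groups `G r`, indexed by the real numbers `r`
and pairwise not isomorphic, such that, for every `r`,

* `G r` embeds into the group of the orientation preserving diffeomorphisms of `[0,1]` of class
  `C^{k,Lip}`, and also into that of the circle;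
* there is an element `y ≠ 1` of `G r` with `φ y = 1` for every homomorphism `φ` from `G r` to the
  group of the orientation preserving `C^{k+1}` diffeomorphisms of `[0,1]` or of the circle; in
  particular `G r` does not embed into these groups. -/
theorem result (k : ℕ) (hk : 1 ≤ k) : ∃ (G : ℝ → Type) (_ : ∀ r, Group (G r)),
    (∀ r, Group.FG (G r) ∧
      (∃ φ : G r →* (Icc (0:ℝ) 1 ≃o Icc (0:ℝ) 1), Injective φ ∧ ∀ g, φ g ∈ LipI k) ∧
      (∃ φ : G r →* Equiv.Perm (AddCircle (1:ℝ)), Injective φ ∧ ∀ g, φ g ∈ LipS k) ∧
      ∃ y : G r, y ≠ 1 ∧ (∀ φ : G r →* DiffI (k + 1 : ℕ), φ y = 1) ∧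
        (∀ φ : G r →* DiffS (k + 1 : ℕ), φ y = 1)) ∧
    ∀ r r' : ℝ, r ≠ r' → IsEmpty (G r ≃* G r') :=
  Pool.Agent.X171.Lip.many_lip k hk

end Pool.Agent.Results.MP_02cf79_al.ContinuumLipGroups
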